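import Pool.Agent.W133.DQ.StF

/-!
# DQ-PEXT: equivariant smooth extension
-/

set_option autoImplicit false

open scoped ContDiff
open Set Filter Topology

namespace Pool.Agent.W571.DQ

open Pool.Agent.W133.DQ

/-- the bump whose translates sum to one -/
noncomputable def w (x : ℝ) : ℝ := Real.smoothTransition x - Real.smoothTransition (x - 1)

lemma w_of_le {x : ℝ} (h : x ≤ 0) : w x = 0 := by
  unfold w
  rw [Real.smoothTransition.zero_of_nonpos h, Real.smoothTransition.zero_of_nonpos (by linarith),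
    sub_zero]

lemma w_of_ge {x : ℝ} (h : 2 ≤ x) : w x = 0 := by
  unfold w
  rw [Real.smoothTransition.one_of_one_le (by linarith),
    Real.smoothTransition.one_of_one_le (by linarith), sub_self]

lemma w_smooth : ContDiff ℝ ∞ w :=
  Real.smoothTransition.contDiff.sub
    (Real.smoothTransition.contDiff.comp (contDiff_id.sub contDiff_const))

lemma w_pair (x : ℝ) : ∃ n : ℤ, (∀ k : ℤ, k ≠ -n → k ≠ -n + 1 → w (x + k) = 0) ∧
    w (x + ((-n : ℤ) : ℝ)) + w (x + ((-n + 1 : ℤ) : ℝ)) = 1 := by
  refine ⟨⌊x⌋, fun k h1 h2 => ?_, ?_⟩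
  · have e1 := Int.floor_le x
    have e2 := Int.lt_floor_add_one x
    rcases lt_or_gt_of_ne h1 with h | h
    · apply w_of_le
      have : k + 1 ≤ -⌊x⌋ := h
      have : (k : ℝ) + 1 ≤ -(⌊x⌋ : ℝ) := by exact_mod_cast this
      linarith
    · apply w_of_ge
      have : -⌊x⌋ + 2 ≤ k := by omega
      have : -(⌊x⌋ : ℝ) + 2 ≤ (k : ℝ) := by exact_mod_cast this
      linarith
  · have e1 := Int.floor_le x
    have e2 := Int.lt_floor_add_one x
    unfold w
    push_cast
    have h1 : Real.smoothTransition (x + -(⌊x⌋ : ℝ) - 1) = 0 :=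
      Real.smoothTransition.zero_of_nonpos (by linarith)
    have h2 : Real.smoothTransition (x + (-(⌊x⌋ : ℝ) + 1)) = 1 :=
      Real.smoothTransition.one_of_one_le (by linarith)
    have h3 : x + (-(⌊x⌋ : ℝ) + 1) - 1 = x + -(⌊x⌋ : ℝ) := by ring
    rw [h1, h2, h3]
    ring

lemma w_sum (x : ℝ) (v : P2) : ∑' k : ℤ, w (x + k) • v = v := by
  obtain ⟨n, h1, h2⟩ := w_pair x
  rw [tsum_eq_sum (s := {-n, -n + 1})]
  · rw [Finset.sum_pair (by omega), ← add_smul, h2, one_smul]
  · intro k hk
    simp only [Finset.mem_insert, Finset.mem_singleton, not_or] at hk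
    rw [h1 k hk.1 hk.2, zero_smul]

lemma equivar {f : Equiv.Perm HH} (h : ∀ p : HH, f (hT 1 p) = hT 1 (f p)) (k : ℤ) :
    ∀ p : HH, f (hT k p) = hT k (f p) := by
  have hadd : ∀ (a b : ℝ) (p : HH), hT (a + b) p = hT a (hT b p) := by
    intro a b p
    apply Subtype.ext
    simp only [hT_coe]
    ext
    · simp only; ring
    · rfl
  have h0 : ∀ p : HH, hT 0 p = p := by
    intro p
    apply Subtype.ext
    simp
  induction k using Int.induction_on with
  | zero =>
    intro p
    rw [Int.cast_zero, h0, h0]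
  | succ k ih =>
    intro p
    push_cast
    rw [hadd, hadd]
    have := ih (hT 1 p)
    push_cast at this
    rw [this, h]
  | pred k ih =>
    intro p
    have e1 : ∀ q : HH, hT (((-(k : ℤ) - 1 : ℤ) : ℝ)) q = hT ((-(k : ℤ) : ℤ) : ℝ) (hT (-1) q) := by
      intro q
      rw [← hadd]
      have e3 : ((-(k : ℤ) - 1 : ℤ) : ℝ) = ((-(k : ℤ) : ℤ) : ℝ) + -1 := by
        push_cast
        ring
      rw [e3]
    rw [e1, e1, ih]
    congr 1
    have e2 := h (hT (-1) p)
    rw [← hadd] at e2
    rw [show (1 : ℝ) + -1 = 0 by norm_num, h0] at e2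
    rw [e2, ← hadd, show (-1 : ℝ) + 1 = 0 by norm_num, h0]

/-- PEXT. -/
theorem pext : S_PEXT := by
  intro f hf
  obtain ⟨⟨F0, hF0, hF0'⟩, -, heq, -, -⟩ := hf
  set ψ : P2 → P2 := fun p => w p.1 • (F0 p - p) with hψ
  have hψs : ContDiff ℝ ∞ ψ := by
    have h1 : ContDiff ℝ ∞ fun p : P2 => w p.1 := w_smooth.comp contDiff_fst
    have h2 : ContDiff ℝ ∞ fun p : P2 => F0 p - p := hF0.sub contDiff_id
    exact h1.smul h2
  set F : P2 → P2 := fun p => p + ∑' k : ℤ, ψ (p + ((k : ℝ), 0)) with hF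
  refine ⟨F, ?_, ?_, ?_⟩
  · rw [contDiff_iff_contDiffAt]
    intro p0
    obtain ⟨K, hK⟩ := exists_nat_gt (|p0.1| + 3)
    have hloc : F =ᶠ[𝓝 p0] fun p => p + ∑ k ∈ Finset.Icc (-(K : ℤ)) K, ψ (p + ((k : ℝ), 0)) := by
      have hopen : ∀ᶠ p : P2 in 𝓝 p0, |p.1 - p0.1| < 1 := by
        have hc : Continuous fun p : P2 => |p.1 - p0.1| := by fun_prop
        have : (fun p : P2 => |p.1 - p0.1|) p0 < 1 := by simp
        exact hc.continuousAt.eventually_lt continuousAt_const this
      filter_upwards [hopen] with p hp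
      simp only [hF]
      congr 1
      rw [tsum_eq_sum (s := Finset.Icc (-(K : ℤ)) K)]
      intro k hk
      simp only [hψ, Prod.fst_add]
      have h1 : w (p.1 + k) = 0 := by
        rw [abs_lt] at hp
        have h2 := abs_nonneg p0.1
        have h3 := neg_abs_le p0.1
        have h4 := le_abs_self p0.1
        rw [Finset.mem_Icc, not_and_or, not_le, not_le] at hk
        rcases hk with hk | hk
        · apply w_of_le
          have : (k : ℝ) < -(K : ℝ) := by exact_mod_cast hk
          linarith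
        · apply w_of_ge
          have : (K : ℝ) < k := by exact_mod_cast hk
          linarith
      rw [h1, zero_smul]
    refine ContDiffAt.congr_of_eventuallyEq ?_ hloc
    refine ContDiff.contDiffAt ?_
    refine contDiff_id.add (ContDiff.sum fun k _ => ?_)
    exact hψs.comp (contDiff_id.add contDiff_const)
  · intro p
    simp only [hF]
    have h1 : ∀ k : ℤ, ψ ((p : P2) + ((k : ℝ), 0)) = w (p.1.1 + k) • ((f p : P2) - p) := by
      intro k
      simp only [hψ, Prod.fst_add]
      congr 1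
      have e1 : (p : P2) + ((k : ℝ), 0) = ((hT k p : HH) : P2) := by
        rw [hT_coe]
        ext <;> simp
      rw [e1, ← hF0', equivar heq k p, hT_coe, hT_coe]
      ext <;> simp
    simp only [h1]
    rw [w_sum]
    abel
  · intro p
    simp only [hF]
    have e1 : ((p.1 + 1, p.2) : P2) = p + (1, 0) := by ext <;> simp
    rw [e1]
    have e2 : ∑' k : ℤ, ψ (p + (1, 0) + ((k : ℝ), 0)) = ∑' k : ℤ, ψ (p + ((k : ℝ), 0)) := by
      rw [← (Equiv.addRight (1 : ℤ)).tsum_eq (fun k : ℤ => ψ (p + ((k : ℝ), 0)))]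
      refine tsum_congr fun k => ?_
      congr 1
      ext
      · simp
        ring
      · simp
    rw [e2]
    abel

end Pool.Agent.W571.DQ
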